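import Mathlib

/-!
A countable soluble 5-Engel group of exponent 8 which is not a Fitting group (MP_2d5453_al):
the group `W` (copied from the proof of the frozen statement by helper3).
-/

set_option autoImplicit false

open scoped commutatorElement

namespace Pool.Agent.H80.Fit

/-- The generalised dihedral group of the additive group `ℕ → ZMod 4`. -/
@[ext] structure D where
  s : ℤˣ
  b : ℕ → ZMod 4

namespace D

instance : Mul D := ⟨fun x y => ⟨x.s * y.s, x.b + x.s • y.b⟩⟩
instance : One D := ⟨⟨1, 0⟩⟩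
instance : Inv D := ⟨fun x => ⟨x.s, -(x.s • x.b)⟩⟩

theorem mul_s (x y : D) : (x * y).s = x.s * y.s := rfl
theorem mul_b (x y : D) : (x * y).b = x.b + x.s • y.b := rfl
theorem one_s : (1 : D).s = 1 := rfl
theorem one_b : (1 : D).b = 0 := rfl
theorem inv_s (x : D) : (x⁻¹).s = x.s := rfl
theorem inv_b (x : D) : (x⁻¹).b = -(x.s • x.b) := rfl

instance : Group D := Group.ofLeftAxioms
  (by
    intro x y z
    ext1
    · simp only [mul_s, mul_assoc]
    · simp only [mul_s, mul_b, mul_smul, smul_add, add_assoc])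
  (by
    intro x
    ext1
    · simp only [mul_s, one_s, one_mul]
    · simp only [mul_b, one_b, one_s, one_smul, zero_add])
  (by
    intro x
    ext1
    · simp only [mul_s, inv_s, one_s, Int.units_mul_self]
    · simp only [mul_b, inv_b, inv_s, one_b, neg_add_cancel])

theorem two_smul_two (b : ℕ → ZMod 4) : b + b + b + b = 0 := by
  funext i
  have : ∀ z : ZMod 4, z + z + z + z = 0 := by decide
  exact this (b i)

theorem cases_s (x : D) : x.s = 1 ∨ x.s = -1 := Int.units_eq_one_or x.s

/-- Elements outside the abelian part are involutions. -/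
theorem sq_of_neg (g : D) (hg : g.s = -1) : g * g = 1 := by
  ext1
  · rw [mul_s, hg, one_s]; decide
  · rw [mul_b, hg, one_b]; simp

theorem pow4 (g : D) : g * g * (g * g) = 1 := by
  rcases cases_s g with hg | hg
  · ext1
    · simp only [mul_s, hg, one_s, mul_one]
    · simp only [mul_b, mul_s, hg, one_smul, mul_one, one_b]
      have := two_smul_two g.b
      rw [← this]; abel
  · rw [sq_of_neg g hg, one_mul]

/-- The commutator of `x` and `g` is either trivial or the square of `g`,
unless `g` is an involution. -/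
theorem comm_cases (x g : D) :
    g * g = 1 ∨ x⁻¹ * g⁻¹ * x * g = 1 ∨ x⁻¹ * g⁻¹ * x * g = g * g := by
  rcases cases_s g with hg | hg
  · right
    rcases cases_s x with hx | hx
    · left
      ext1
      · simp only [mul_s, inv_s, hg, hx, one_s, mul_one]
      · simp only [mul_b, mul_s, inv_b, inv_s, hg, hx, one_smul, mul_one, one_b]
        abel
    · right
      ext1
      · simp only [mul_s, inv_s, hg, hx, mul_one]; decide
      · simp only [mul_b, mul_s, inv_b, inv_s, hg, hx, one_smul, mul_one, Units.neg_smul,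
          neg_neg, smul_neg]
        simp
  · left
    exact sq_of_neg g hg

/-- Commutators are central. -/
theorem comm_central (x g y : D) : (x⁻¹ * g⁻¹ * x * g) * y = y * (x⁻¹ * g⁻¹ * x * g) := by
  ext1
  · simp only [mul_s, inv_s]
    exact mul_comm _ _
  · rcases cases_s g with hg | hg <;> rcases cases_s x with hx | hx <;>
    rcases cases_s y with hy | hy <;>
    (simp only [mul_b, mul_s, inv_b, inv_s, hg, hx, hy, one_smul, mul_one, Units.neg_smul,
          neg_neg, smul_neg, mul_neg, smul_add]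
     funext i
     simp only [Pi.add_apply, Pi.neg_apply]
     generalize x.b i = a
     generalize g.b i = b
     generalize y.b i = c
     have h4 : (4 : ZMod 4) = 0 := by decide
     first
       | ring1
       | linear_combination b * h4
       | linear_combination (-a) * h4
       | linear_combination (a - b) * h4)

/-- The reflection. -/
def t : D := ⟨-1, 0⟩

/-- The square of the `i`-th generator of the abelian part. -/
def β (i : ℕ) : D := ⟨1, Pi.single i 2⟩

end D

/-- The wreath-type group: functions `D → ZMod 2` extended by `D`. -/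
@[ext] structure W where
  a : D → ZMod 2
  g : D

namespace W

instance : Mul W := ⟨fun x y => ⟨fun p => x.a p + y.a (p * x.g), x.g * y.g⟩⟩
instance : One W := ⟨⟨fun _ => 0, 1⟩⟩
instance : Inv W := ⟨fun x => ⟨fun p => x.a (p * x.g⁻¹), x.g⁻¹⟩⟩

theorem mul_a (x y : W) (p : D) : (x * y).a p = x.a p + y.a (p * x.g) := rfl
theorem mul_g (x y : W) : (x * y).g = x.g * y.g := rfl
theorem one_a (p : D) : (1 : W).a p = 0 := rfl
theorem one_g : (1 : W).g = 1 := rfl
theorem inv_a (x : W) (p : D) : (x⁻¹).a p = x.a (p * x.g⁻¹) := rfl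
theorem inv_g (x : W) : (x⁻¹).g = x.g⁻¹ := rfl

theorem ext' {x y : W} (h₁ : ∀ p, x.a p = y.a p) (h₂ : x.g = y.g) : x = y :=
  W.ext (funext h₁) h₂

theorem add_self2 (z : ZMod 2) : z + z = 0 := by revert z; decide

instance : Group W := Group.ofLeftAxioms
  (by
    intro x y z
    refine ext' (fun p => ?_) ?_
    · simp only [mul_a, mul_g, mul_assoc, add_assoc]
    · simp only [mul_g, mul_assoc])
  (by
    intro x
    refine ext' (fun p => ?_) ?_
    · simp only [mul_a, one_a, one_g, mul_one, zero_add]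
    · simp only [mul_g, one_g, one_mul])
  (by
    intro x
    refine ext' (fun p => ?_) ?_
    · simp only [mul_a, inv_a, inv_g, one_a, add_self2]
    · simp only [mul_g, inv_g, one_g, inv_mul_cancel])

/-- The projection to `D`. -/
def proj : W →* D where
  toFun := W.g
  map_one' := rfl
  map_mul' _ _ := rfl

/-- The sign of an element of `D`. -/
def sgn : D →* ℤˣ where
  toFun := D.s
  map_one' := rfl
  map_mul' _ _ := rfl

instance solvD : Group.IsSolvable D := by
  have h1 : Group.IsSolvable sgn.ker := by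
    apply Group.isSolvable_of_comm
    rintro ⟨x, hx⟩ ⟨y, hy⟩
    have hx' : x.s = 1 := hx
    have hy' : y.s = 1 := hy
    apply Subtype.ext
    change x * y = y * x
    ext1
    · simp only [D.mul_s, hx', hy']
    · simp only [D.mul_b, hx', hy', one_smul, add_comm]
  exact Group.isSolvable_of_ker_le_range sgn.ker.subtype sgn (by simp)

instance solvW : Group.IsSolvable W := by
  have h1 : Group.IsSolvable proj.ker := by
    apply Group.isSolvable_of_comm
    rintro ⟨x, hx⟩ ⟨y, hy⟩
    have hx' : x.g = 1 := hx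
    have hy' : y.g = 1 := hy
    apply Subtype.ext
    change x * y = y * x
    refine ext' (fun p => ?_) ?_
    · simp only [mul_a, hx', hy', mul_one, add_comm]
    · simp only [mul_g, hx', hy']
  exact Group.isSolvable_of_ker_le_range proj.ker.subtype proj (by simp)

theorem sq_of_g (z : W) (hz : z.g = 1) : z * z = 1 := by
  refine ext' (fun p => ?_) ?_
  · simp only [mul_a, hz, mul_one, add_self2, one_a]
  · simp only [mul_g, hz, mul_one, one_g]

theorem pgroup : IsPGroup 2 W := by
  intro x
  refine ⟨3, ?_⟩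
  have h : (x * x * (x * x)).g = 1 := D.pow4 x.g
  have h2 := sq_of_g _ h
  have h3 : x ^ 2 ^ 3 = x * x * (x * x) * (x * x * (x * x)) := by
    norm_num [pow_succ, mul_assoc]
  rw [h3, h2]

/-- The commutator with `y`. -/
def C (y : W) : W → W := fun z => z⁻¹ * y⁻¹ * z * y

theorem C_g (y z : W) : (C y z).g = z.g⁻¹ * y.g⁻¹ * z.g * y.g := rfl

theorem C_a (y z : W) (p : D) :
    (C y z).a p = z.a (p * z.g⁻¹) + y.a (p * z.g⁻¹ * y.g⁻¹) + z.a (p * (z.g⁻¹ * y.g⁻¹))
      + y.a (p * (z.g⁻¹ * y.g⁻¹ * z.g)) := rfl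

theorem C_g_one (y z : W) (hz : z.g = 1) : (C y z).g = 1 := by
  rw [C_g, hz]; group

theorem C_a_one (y z : W) (hz : z.g = 1) (p : D) :
    (C y z).a p = z.a p + z.a (p * y.g⁻¹) := by
  rw [C_a, hz]
  simp only [inv_one, mul_one, one_mul]
  have := add_self2 (y.a (p * y.g⁻¹))
  linear_combination this

theorem engel (x y : W) : (C y)^[5] x = 1 := by
  set c1 := C y x with hc1
  set c2 := C y c1 with hc2
  set c3 := C y c2 with hc3
  set c4 := C y c3 with hc4
  set c5 := C y c4 with hc5
  change c5 = 1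
  set g := y.g with hg
  set h := c1.g with hh
  have hcomm : ∀ d : D, h * d = d * h := fun d => D.comm_central x.g y.g d
  have g2 : c2.g = 1 := by
    rw [hc2, C_g, ← hh, ← hg, mul_assoc, mul_assoc]
    rw [hcomm g]; group
  have g3 : c3.g = 1 := C_g_one y c2 g2
  have g4 : c4.g = 1 := C_g_one y c3 g3
  have g5 : c5.g = 1 := C_g_one y c4 g4
  refine ext' (fun p => ?_) g5
  rw [one_a]
  have a2 : ∀ q, c2.a q = c1.a (q * h⁻¹) + c1.a (q * h⁻¹ * g⁻¹) + y.a (q * h⁻¹ * g⁻¹)
      + y.a (q * g⁻¹) := by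
    intro q
    rw [hc2, C_a, ← hh, ← hg]
    have e : q * (h⁻¹ * g⁻¹ * h) = q * g⁻¹ := by
      have := hcomm (g⁻¹)
      rw [mul_assoc h⁻¹, ← this]; group
    rw [e, ← mul_assoc]
    ring
  have a3 : ∀ q, c3.a q = c2.a q + c2.a (q * g⁻¹) := fun q => C_a_one y c2 g2 q
  have a4 : ∀ q, c4.a q = c3.a q + c3.a (q * g⁻¹) := fun q => C_a_one y c3 g3 q
  have a5 : ∀ q, c5.a q = c4.a q + c4.a (q * g⁻¹) := fun q => C_a_one y c4 g4 q
  have two : ∀ z : ZMod 2, 2 * z = 0 := by decide
  have b5 : c5.a p = c2.a p + c2.a (p * g⁻¹) + c2.a (p * g⁻¹ * g⁻¹)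
      + c2.a (p * g⁻¹ * g⁻¹ * g⁻¹) := by
    rw [a5, a4, a4, a3, a3, a3]
    linear_combination two (c2.a (p * g⁻¹)) + two (c2.a (p * g⁻¹ * g⁻¹))
  have c4 : ∀ q : D, q * g⁻¹ * g⁻¹ * g⁻¹ * g⁻¹ = q := by
    intro q
    have h1 := D.pow4 g⁻¹
    simp only [mul_assoc] at h1 ⊢
    rw [h1, mul_one]
  have hc : ∀ q : D, q * g⁻¹ * h⁻¹ = q * h⁻¹ * g⁻¹ := by
    intro q
    have h1 := hcomm g
    rw [mul_assoc, mul_assoc, ← mul_inv_rev, ← mul_inv_rev, h1]
  rw [b5, a2, a2, a2, a2]
  simp only [hc]
  simp only [c4]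
  -- the remaining sum
  rcases D.comm_cases x.g g with h1 | h1 | h1
  · -- `g` is an involution
    have hinv : ∀ q : D, q * g⁻¹ * g⁻¹ = q := by
      intro q
      rw [mul_assoc, ← mul_inv_rev, h1]; group
    simp only [hinv]
    linear_combination two (c1.a (p * h⁻¹)) * 2 + two (c1.a (p * h⁻¹ * g⁻¹)) * 2
      + two (y.a (p * h⁻¹ * g⁻¹)) + two (y.a (p * g⁻¹)) + two (y.a p) + two (y.a (p * h⁻¹))
  · have h2 : h = 1 := h1
    simp only [h2, inv_one, mul_one]
    ring_nf
    reduce_mod_char
  · have h2 : h⁻¹ = g⁻¹ * g⁻¹ := by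
      have : h = g * g := h1
      rw [this, mul_inv_rev]
    simp only [h2, ← mul_assoc]
    simp only [c4]
    ring_nf
    reduce_mod_char

/-- The delta function at the identity, as an element of the base group. -/
noncomputable def dl : W := ⟨fun p => by classical exact if p = 1 then 1 else 0, 1⟩

/-- The reflection inside `W`. -/
def tt : W := ⟨fun _ => 0, D.t⟩

/-- The generators of the abelian part inside `W`. -/
def bb (i : ℕ) : W := ⟨fun _ => 0, ⟨1, Pi.single i 1⟩⟩

theorem comm_g (x y : W) : (⁅x, y⁆ : W).g = x.g * y.g * x.g⁻¹ * y.g⁻¹ := by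
  rw [commutatorElement_def]
  simp only [mul_g, inv_g]

theorem comm_xb {x : W} (hx : x.g.s = -1) (i : ℕ) : (⁅x, bb i⁆ : W).g = D.β i := by
  rw [comm_g]
  ext1
  · simp only [D.mul_s, D.inv_s, hx]
    simp only [bb, D.β]
    decide
  · simp only [D.mul_b, D.mul_s, D.inv_b, D.inv_s, hx]
    simp only [bb, D.β]
    funext j
    have h2 : (-1 : ZMod 4) + -1 = 2 := by decide
    rcases eq_or_ne j i with rfl | hj
    · simp [h2]
    · simp [hj]

/-- base group elements `u_0 = [dl, x]`, `u_(n+1) = [u_n, [x, b_n]]` -/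
noncomputable def u (x : W) : ℕ → W
  | 0 => ⁅dl, x⁆
  | n + 1 => ⁅u x n, ⁅x, bb n⁆⁆

theorem u_g (x : W) (n : ℕ) : (u x n).g = 1 := by
  induction n with
  | zero =>
    change (⁅dl, x⁆ : W).g = 1
    rw [comm_g]
    have : dl.g = 1 := rfl
    rw [this]; group
  | succ n ih =>
    change (⁅u x n, ⁅x, bb n⁆⁆ : W).g = 1
    rw [comm_g, ih]
    group

theorem comm_a {z y : W} (hz : z.g = 1) (p : D) : (⁅z, y⁆ : W).a p = z.a p + z.a (p * y.g) := by
  rw [commutatorElement_def]
  simp only [mul_a, inv_a, mul_g, inv_g, hz, mul_one, one_mul, inv_one]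
  have h1 : p * y.g * y.g⁻¹ = p := by group
  rw [h1]
  have := add_self2 (y.a p)
  linear_combination this

theorem u_zero (x : W) (p : D) : (u x 0).a p = dl.a p + dl.a (p * x.g) :=
  comm_a rfl p

theorem u_succ {x : W} (hx : x.g.s = -1) (n : ℕ) (p : D) :
    (u x (n + 1)).a p = (u x n).a p + (u x n).a (p * D.β n) := by
  change (⁅u x n, ⁅x, bb n⁆⁆ : W).a p = _
  rw [comm_a (u_g x n), comm_xb hx]

theorem beta_s (p : D) (n : ℕ) : (p * D.β n).s = p.s := by
  rw [D.mul_s]; simp [D.β]

theorem beta_b (p : D) (n i : ℕ) : (p * D.β n).b i = if i = n then p.b i + 2 else p.b i := by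
  rw [D.mul_b]
  have h2 : -(2 : ZMod 4) = 2 := by decide
  rcases D.cases_s p with hp | hp <;> rw [hp] <;> split_ifs with h <;>
    simp [D.β, h, h2]

theorem dl_ne {p : D} (hp : p ≠ 1) : dl.a p = 0 := if_neg hp

theorem dl_one : dl.a 1 = 1 := if_pos rfl

theorem mul_x_ne {x : W} (hx : x.g.s = -1) {p : D} (hp : p.s = 1) : p * x.g ≠ 1 := by
  intro h
  have := congrArg D.s h
  rw [D.mul_s, hp, hx, D.one_s] at this
  revert this
  decide

theorem u_supp {x : W} (hx : x.g.s = -1) (n : ℕ) :
    ∀ (p : D) (i : ℕ), p.s = 1 → n ≤ i → p.b i ≠ 0 → (u x n).a p = 0 := by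
  induction n with
  | zero =>
    intro p i hs _ hp
    rw [u_zero, dl_ne, dl_ne (mul_x_ne hx hs), add_zero]
    rintro rfl; exact hp rfl
  | succ n ih =>
    intro p i hs hi hp
    rw [u_succ hx, ih p i hs (by omega) hp,
      ih (p * D.β n) i (by rw [beta_s]; exact hs) (by omega) ?_, add_zero]
    rw [beta_b, if_neg (by omega)]
    exact hp

theorem u_one {x : W} (hx : x.g.s = -1) (n : ℕ) : (u x n).a 1 = 1 := by
  induction n with
  | zero =>
    rw [u_zero, dl_one, dl_ne (mul_x_ne hx rfl), add_zero]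
  | succ n ih =>
    rw [u_succ hx, ih, u_supp hx n (1 * D.β n) n (by rw [beta_s]; rfl) le_rfl ?_, add_zero]
    rw [beta_b, if_pos rfl, D.one_b]
    change (0 : ZMod 4) + 2 ≠ 0
    decide

/-- generators of the countable group -/
noncomputable def gen : Option (Option ℕ) → W
  | none => dl
  | some none => tt
  | some (some i) => bb i

/-- the homomorphism onto the countable group -/
noncomputable def φ : FreeGroup (Option (Option ℕ)) →* W := FreeGroup.lift gen

/-- the countable group -/
noncomputable def H : Subgroup W := φ.range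

theorem dl_mem : dl ∈ H := ⟨FreeGroup.of none, FreeGroup.lift_apply_of⟩
theorem tt_mem : tt ∈ H := ⟨FreeGroup.of (some none), FreeGroup.lift_apply_of⟩
theorem bb_mem (i : ℕ) : bb i ∈ H := ⟨FreeGroup.of (some (some i)), FreeGroup.lift_apply_of⟩

theorem countable_H : Countable H := by
  have h1 : (Set.range φ).Countable := Set.countable_range φ
  exact h1.to_subtype

theorem derived_D : derivedSeries D 2 = ⊥ := by
  have h1 : derivedSeries D 1 ≤ sgn.ker := by
    have := map_derivedSeries_le_derivedSeries sgn 1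
    have h2 : derivedSeries ℤˣ 1 = ⊥ := by
      rw [derivedSeries_succ, derivedSeries_zero, Subgroup.commutator_eq_bot_iff_le_centralizer]
      intro x _
      rw [Subgroup.mem_centralizer_iff]
      intro y _
      exact mul_comm y x
    rw [h2, le_bot_iff, Subgroup.map_eq_bot_iff] at this
    exact this
  rw [derivedSeries_succ, Subgroup.commutator_eq_bot_iff_le_centralizer]
  intro x hx
  rw [Subgroup.mem_centralizer_iff]
  intro y hy
  have hx' : x.s = 1 := h1 hx
  have hy' : y.s = 1 := h1 hy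
  ext1
  · simp only [D.mul_s, hx', hy']
  · simp only [D.mul_b, hx', hy', one_smul, add_comm]

theorem derived_W : derivedSeries W 3 = ⊥ := by
  have h1 : derivedSeries W 2 ≤ proj.ker := by
    have := map_derivedSeries_le_derivedSeries proj 2
    rw [derived_D, le_bot_iff, Subgroup.map_eq_bot_iff] at this
    exact this
  rw [derivedSeries_succ, Subgroup.commutator_eq_bot_iff_le_centralizer]
  intro x hx
  rw [Subgroup.mem_centralizer_iff]
  intro y hy
  have hx' : x.g = 1 := h1 hx
  have hy' : y.g = 1 := h1 hy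
  refine ext' (fun p => ?_) ?_
  · simp only [mul_a, hx', hy', mul_one, add_comm]
  · simp only [mul_g, hx', hy']

theorem derived_H : derivedSeries H 3 = ⊥ := by
  have := map_derivedSeries_le_derivedSeries H.subtype 3
  rw [derived_W, le_bot_iff] at this
  exact (Subgroup.map_eq_bot_iff_of_injective _ H.subtype_injective).1 this

theorem pow_eight (x : W) : x ^ 8 = 1 := by
  have h : (x * x * (x * x)).g = 1 := D.pow4 x.g
  have h2 := sq_of_g _ h
  have h3 : x ^ 8 = x * x * (x * x) * (x * x * (x * x)) := by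
    norm_num [pow_succ, mul_assoc]
  rw [h3, h2]

/-- the sign on the countable group -/
noncomputable def sg : H →* ℤˣ := (sgn.comp proj).comp H.subtype

theorem sg_tt : sg ⟨tt, tt_mem⟩ = -1 := rfl

theorem not_nil (N : Subgroup H) (hN : N.Normal) (hnil : Group.IsNilpotent N) :
    N ≤ sg.ker := by
  intro x hx
  by_contra hcon
  have hs : (x : W).g.s = -1 := by
    rcases D.cases_s (x : W).g with h | h
    · exact absurd (show sg x = 1 from h) hcon
    · exact h
  let dl' : H := ⟨dl, dl_mem⟩
  let bb' : ℕ → H := fun i => ⟨bb i, bb_mem i⟩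
  have hb : ∀ i, ⁅x, bb' i⁆ ∈ N := by
    intro i
    rw [commutatorElement_def]
    have : x * bb' i * x⁻¹ * (bb' i)⁻¹ = x * (bb' i * x⁻¹ * (bb' i)⁻¹) := by group
    rw [this]
    exact N.mul_mem hx (hN.conj_mem _ (N.inv_mem hx) _)
  have h0 : ⁅dl', x⁆ ∈ N := by
    rw [commutatorElement_def]
    exact N.mul_mem (hN.conj_mem _ hx _) (N.inv_mem hx)
  have hu : ∀ n, ∃ v : H, (v : W) = u x n ∧ v ∈ N.lowerCentralSeries n := by
    intro n
    induction n with
    | zero => exact ⟨⁅dl', x⁆, rfl, h0⟩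
    | succ n ih =>
      obtain ⟨v, hv, hvN⟩ := ih
      refine ⟨⁅v, ⁅x, bb' n⁆⁆, ?_, Subgroup.commutator_mem_commutator hvN (hb n)⟩
      show ⁅(v : W), ⁅(x : W), bb n⁆⁆ = ⁅u x n, ⁅(x : W), bb n⁆⁆
      rw [hv]
  obtain ⟨n, hn⟩ := (Subgroup.isNilpotent_iff_lowerCentralSeries N).mp hnil
  obtain ⟨v, hv, hvN⟩ := hu n
  rw [hn, Subgroup.mem_bot] at hvN
  have h2 := u_one hs n
  rw [← hv, hvN] at h2
  have h3 : (((1 : H) : W)).a 1 = 0 := rfl
  rw [h3] at h2
  exact absurd h2 (by decide)

theorem sg_index : sg.ker.index = 2 := by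
  have h1 : Function.Surjective sg := by
    intro e
    rcases Int.units_eq_one_or e with rfl | rfl
    · exact ⟨1, map_one _⟩
    · exact ⟨⟨tt, tt_mem⟩, sg_tt⟩
  rw [Subgroup.index_ker, MonoidHom.range_eq_top.2 h1]
  simp

theorem tt_sq : (⟨tt, tt_mem⟩ : H) ^ 2 = 1 := by
  apply Subtype.ext
  show tt ^ 2 = 1
  rw [sq]
  refine ext' (fun p => ?_) ?_
  · simp only [mul_a, one_a]
    simp [tt]
  · simp only [mul_g, one_g]
    simp only [tt]
    exact D.sq_of_neg D.t rfl

end W

end Pool.Agent.H80.Fit
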